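import Mathlib
import Pool.Agent.Helper8.Diss.Main

set_option autoImplicit false

namespace Pool.Agent.Helper57.DS

open Finset Pool.Agent.Helper8.Diss

/-- the 2-adic levels at which `x` has a sibling in `Y` -/
def lev (Y : Finset ℤ) (x : ℤ) : Finset ℕ :=
  (Y.erase x).image (fun y => padicValInt 2 (y - x))

/-- the levels with a sibling at distance less than `2 ^ (i - r)` -/
def levr (X : Finset ℤ) (i r : ℕ) (x : ℤ) : Finset ℕ :=
  ((X.erase x).filter (fun y => (y - x).natAbs * 2 ^ r < 2 ^ i)).image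
    (fun y => padicValInt 2 (y - x))

lemma pow_dvd_iff {a : ℤ} (ha : a ≠ 0) (n : ℕ) : (2 : ℤ) ^ n ∣ a ↔ n ≤ padicValInt 2 a := by
  have h := padicValInt_dvd_iff (p := 2) n a
  simp only [Nat.cast_ofNat] at h
  rw [h]
  simp [ha]

lemma val_eq {a : ℤ} (n : ℕ) (h1 : (2 : ℤ) ^ n ∣ a) (h2 : ¬ (2 : ℤ) ^ (n + 1) ∣ a) :
    padicValInt 2 a = n := by
  have ha : a ≠ 0 := by
    rintro rfl
    exact h2 (dvd_zero _)
  rw [pow_dvd_iff ha] at h1 h2
  omega

lemma lev_step (Y T : Finset ℤ) (hT : T ⊆ Y) (k : ℕ) (u : ℤ) (hu : u ∈ Y)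
    (h1 : ∀ x ∈ T, (2 : ℤ) ^ k ∣ u - x) (h2 : ∀ x ∈ T, ¬ (2 : ℤ) ^ (k + 1) ∣ u - x)
    (h3 : ∀ x ∈ T, ∀ y ∈ T, (2 : ℤ) ^ (k + 1) ∣ y - x) :
    ∀ x ∈ T, (lev T x).card + 1 ≤ (lev Y x).card := by
  intro x hx
  have hk : k ∉ lev T x := by
    intro h
    obtain ⟨y, hy, hyk⟩ := Finset.mem_image.mp h
    obtain ⟨hyx, hyT⟩ := Finset.mem_erase.mp hy
    have h4 := (pow_dvd_iff (sub_ne_zero.mpr hyx) (k + 1)).mp (h3 x hx y hyT)
    omega
  rw [← Finset.card_insert_of_notMem hk]
  apply Finset.card_le_card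
  intro j hj
  rcases Finset.mem_insert.mp hj with rfl | hj
  · refine Finset.mem_image.mpr ⟨u, Finset.mem_erase.mpr ⟨?_, hu⟩, val_eq _ (h1 x hx) (h2 x hx)⟩
    rintro rfl
    exact h2 u hx (by simp)
  · obtain ⟨y, hy, rfl⟩ := Finset.mem_image.mp hj
    exact Finset.mem_image.mpr ⟨y, Finset.erase_subset_erase _ hT hy, rfl⟩

/-- Kraft inequality for the 2-adic tree of a finite set of integers -/
lemma kraft : ∀ (n : ℕ) (Y : Finset ℤ), Y.card ≤ n →
    ∑ x ∈ Y, ((1 : ℝ) / 2) ^ (lev Y x).card ≤ 1 := by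
  classical
  intro n
  induction n with
  | zero =>
    intro Y hY
    have : Y = ∅ := Finset.card_eq_zero.mp (by omega)
    subst this
    simp
  | succ n ih =>
    intro Y hY
    rcases Nat.lt_or_ge 1 Y.card with h1 | h1
    · obtain ⟨k, _, hk, a, ha, b, hb, hab⟩ :=
        exists_split Y id (Set.injOn_id _) 0 (by intros; simp) h1
      simp only [id] at hk hab
      set Y0 := Y.filter (fun z => (2 : ℤ) ^ (k + 1) ∣ z - a) with hY0
      set Y1 := Y.filter (fun z => ¬ (2 : ℤ) ^ (k + 1) ∣ z - a) with hY1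
      have hsum : Y0.card + Y1.card = Y.card := Finset.card_filter_add_card_filter_not _
      have ha0 : a ∈ Y0 := Finset.mem_filter.mpr ⟨ha, by simp⟩
      have hb1 : b ∈ Y1 := by
        refine Finset.mem_filter.mpr ⟨hb, fun h => hab ?_⟩
        rw [← neg_sub]
        exact dvd_neg.mpr h
      have hc0 : 0 < Y0.card := Finset.card_pos.mpr ⟨a, ha0⟩
      have hc1 : 0 < Y1.card := Finset.card_pos.mpr ⟨b, hb1⟩
      have h00 : ∀ x ∈ Y0, ∀ y ∈ Y0, (2 : ℤ) ^ (k + 1) ∣ y - x := by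
        intro x hx y hy
        have : y - x = (y - a) - (x - a) := by ring
        rw [this]
        exact dvd_sub (Finset.mem_filter.mp hy).2 (Finset.mem_filter.mp hx).2
      have h11 : ∀ x ∈ Y1, ∀ y ∈ Y1, (2 : ℤ) ^ (k + 1) ∣ y - x := by
        intro x hx y hy
        obtain ⟨hxY, hx2⟩ := Finset.mem_filter.mp hx
        obtain ⟨hyY, hy2⟩ := Finset.mem_filter.mp hy
        obtain ⟨c, hc⟩ := hk y hyY a ha
        obtain ⟨d, hd⟩ := hk x hxY a ha
        have hco : ¬ (2 : ℤ) ∣ c := by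
          intro h
          apply hy2
          obtain ⟨e, rfl⟩ := h
          exact ⟨e, by rw [hc]; ring⟩
        have hdo : ¬ (2 : ℤ) ∣ d := by
          intro h
          apply hx2
          obtain ⟨e, rfl⟩ := h
          exact ⟨e, by rw [hd]; ring⟩
        obtain ⟨e, he⟩ : (2 : ℤ) ∣ c - d := by omega
        refine ⟨e, ?_⟩
        have : y - x = 2 ^ k * (c - d) := by linear_combination hc - hd
        rw [this, he]
        ring
      have h01 : ∀ x ∈ Y0, ∀ y ∈ Y1, ¬ (2 : ℤ) ^ (k + 1) ∣ y - x := by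
        intro x hx y hy h
        apply (Finset.mem_filter.mp hy).2
        have : y - a = (y - x) + (x - a) := by ring
        rw [this]
        exact dvd_add h (Finset.mem_filter.mp hx).2
      have hs0 := lev_step Y Y0 (Finset.filter_subset _ _) k b hb
        (fun x hx => hk b hb x (Finset.mem_filter.mp hx).1)
        (fun x hx => h01 x hx b hb1) h00
      have hs1 := lev_step Y Y1 (Finset.filter_subset _ _) k a ha
        (fun x hx => hk a ha x (Finset.mem_filter.mp hx).1)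
        (fun x hx h => h01 a ha0 x hx (by rw [← neg_sub]; exact dvd_neg.mpr h)) h11
      have hb0 : ∑ x ∈ Y0, ((1 : ℝ) / 2) ^ (lev Y x).card ≤ 1 / 2 := by
        calc ∑ x ∈ Y0, ((1 : ℝ) / 2) ^ (lev Y x).card
            ≤ ∑ x ∈ Y0, (1 / 2) * ((1 : ℝ) / 2) ^ (lev Y0 x).card := by
              apply Finset.sum_le_sum
              intro x hx
              rw [← pow_succ']
              exact pow_le_pow_of_le_one (by norm_num) (by norm_num) (hs0 x hx)
          _ ≤ 1 / 2 := by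
              rw [← Finset.mul_sum]
              have := ih Y0 (by omega)
              linarith
      have hb1' : ∑ x ∈ Y1, ((1 : ℝ) / 2) ^ (lev Y x).card ≤ 1 / 2 := by
        calc ∑ x ∈ Y1, ((1 : ℝ) / 2) ^ (lev Y x).card
            ≤ ∑ x ∈ Y1, (1 / 2) * ((1 : ℝ) / 2) ^ (lev Y1 x).card := by
              apply Finset.sum_le_sum
              intro x hx
              rw [← pow_succ']
              exact pow_le_pow_of_le_one (by norm_num) (by norm_num) (hs1 x hx)
          _ ≤ 1 / 2 := by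
              rw [← Finset.mul_sum]
              have := ih Y1 (by omega)
              linarith
      rw [← Finset.sum_filter_add_sum_filter_not Y (fun z => (2 : ℤ) ^ (k + 1) ∣ z - a)]
      linarith
    · calc ∑ x ∈ Y, ((1 : ℝ) / 2) ^ (lev Y x).card ≤ ∑ x ∈ Y, (1 : ℝ) := by
            apply Finset.sum_le_sum
            intro x _
            exact pow_le_one₀ (by norm_num) (by norm_num)
        _ = Y.card := by simp
        _ ≤ 1 := by exact_mod_cast h1

/-- Kraft inequality with cells -/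
lemma kraft_cells (X : Finset ℤ) (i r : ℕ) (hX : ∀ z ∈ X, (2 : ℤ) ^ i ≤ z ∧ z < 2 ^ (i + 1)) :
    ∑ x ∈ X, ((1 : ℝ) / 2) ^ (levr X i r x).card ≤ 2 ^ r := by
  classical
  set cell : ℤ → ℕ := fun z => (((z - 2 ^ i) * 2 ^ r) / 2 ^ i).toNat with hcell
  have hp : (0 : ℤ) < 2 ^ i := by positivity
  have hr : (0 : ℤ) < 2 ^ r := by positivity
  have hnn : ∀ z ∈ X, 0 ≤ ((z - 2 ^ i) * 2 ^ r) / 2 ^ i := by
    intro z hz
    apply Int.ediv_nonneg _ hp.le
    have := (hX z hz).1
    exact mul_nonneg (by linarith) hr.le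
  have hmaps : ∀ z ∈ X, cell z ∈ Finset.range (2 ^ r) := by
    intro z hz
    rw [Finset.mem_range]
    have h1 : ((z - 2 ^ i) * 2 ^ r) / 2 ^ i < 2 ^ r := by
      apply Int.ediv_lt_of_lt_mul hp
      have h2 := (hX z hz).2
      rw [pow_succ] at h2
      have : (z - 2 ^ i) * 2 ^ r < 2 ^ i * 2 ^ r := by
        apply mul_lt_mul_of_pos_right _ hr
        linarith
      linarith [mul_comm ((2 : ℤ) ^ i) (2 ^ r)]
    have h2 := hnn z hz
    have h3 : ((cell z : ℕ) : ℤ) < ((2 ^ r : ℕ) : ℤ) := by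
      rw [hcell]
      push_cast
      rw [Int.toNat_of_nonneg h2]
      exact h1
    exact_mod_cast h3
  rw [← Finset.sum_fiberwise_of_maps_to hmaps]
  calc ∑ c ∈ Finset.range (2 ^ r), ∑ x ∈ X.filter (fun x => cell x = c),
        ((1 : ℝ) / 2) ^ (levr X i r x).card
      ≤ ∑ c ∈ Finset.range (2 ^ r), (1 : ℝ) := by
        apply Finset.sum_le_sum
        intro c _
        refine le_trans ?_ (kraft _ (X.filter (fun x => cell x = c)) le_rfl)
        apply Finset.sum_le_sum
        intro x hx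
        obtain ⟨hxX, hxc⟩ := Finset.mem_filter.mp hx
        apply pow_le_pow_of_le_one (by norm_num) (by norm_num)
        apply Finset.card_le_card
        intro j hj
        obtain ⟨y, hy, rfl⟩ := Finset.mem_image.mp hj
        obtain ⟨hyx, hy2⟩ := Finset.mem_erase.mp hy
        obtain ⟨hyX, hyc⟩ := Finset.mem_filter.mp hy2
        refine Finset.mem_image.mpr ⟨y, Finset.mem_filter.mpr
          ⟨Finset.mem_erase.mpr ⟨hyx, hyX⟩, ?_⟩, rfl⟩
        -- same cell
        have h1 : ((y - 2 ^ i) * 2 ^ r) / 2 ^ i = ((x - 2 ^ i) * 2 ^ r) / 2 ^ i := by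
          have h2 := hnn y hyX
          have h3 := hnn x hxX
          have h4 : cell y = cell x := by rw [hyc, hxc]
          rw [hcell] at h4
          simp only at h4
          omega
        have h5 := Int.emod_add_mul_ediv ((y - 2 ^ i) * 2 ^ r) (2 ^ i)
        have h6 := Int.emod_add_mul_ediv ((x - 2 ^ i) * 2 ^ r) (2 ^ i)
        have h7 := Int.emod_nonneg ((y - 2 ^ i) * 2 ^ r) hp.ne'
        have h8 := Int.emod_nonneg ((x - 2 ^ i) * 2 ^ r) hp.ne'
        have h9 := Int.emod_lt_of_pos ((y - 2 ^ i) * 2 ^ r) hp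
        have h10 := Int.emod_lt_of_pos ((x - 2 ^ i) * 2 ^ r) hp
        rw [h1] at h5
        have h11 : |(y - x) * 2 ^ r| < 2 ^ i := by
          rw [abs_lt]
          constructor <;> nlinarith
        have h12 : (((y - x).natAbs * 2 ^ r : ℕ) : ℤ) < ((2 ^ i : ℕ) : ℤ) := by
          push_cast
          rw [abs_mul, abs_of_pos hr] at h11
          exact h11
        exact_mod_cast h12
    _ = 2 ^ r := by simp

/-- a leaf with many close siblings on every scale -/
lemma good_leaf (X : Finset ℤ) (i k : ℕ) (hX : ∀ z ∈ X, (2 : ℤ) ^ i ≤ z ∧ z < 2 ^ (i + 1))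
    (hk : 2 ^ k ≤ X.card) : ∃ x ∈ X, ∀ r, k ≤ (levr X i r x).card + 2 * r := by
  classical
  by_contra hcon
  push Not at hcon
  have h1 : ∀ x ∈ X, (1 : ℝ) ≤ ∑ r ∈ Finset.range k,
      (2 : ℝ) ^ k * (1 / 2) ^ (2 * r + 1) * (1 / 2) ^ (levr X i r x).card := by
    intro x hx
    obtain ⟨r, hr⟩ := hcon x hx
    have hrk : r ∈ Finset.range k := Finset.mem_range.mpr (by omega)
    refine le_trans ?_ (Finset.single_le_sum (f := fun r => (2 : ℝ) ^ k * (1 / 2) ^ (2 * r + 1) *
      (1 / 2) ^ (levr X i r x).card) (fun r _ => by positivity) hrk)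
    rw [mul_assoc, ← pow_add]
    obtain ⟨s, hs⟩ : ∃ s, k = (2 * r + 1 + (levr X i r x).card) + s :=
      ⟨k - (2 * r + 1 + (levr X i r x).card), by omega⟩
    have h2 : (2 : ℝ) ^ k * (1 / 2) ^ (2 * r + 1 + (levr X i r x).card) = 2 ^ s := by
      rw [hs, pow_add, one_div, inv_pow]
      field_simp
    rw [h2]
    exact one_le_pow₀ (by norm_num)
  have h2 : (X.card : ℝ) ≤ 2 ^ k - 1 := by
    calc (X.card : ℝ) = ∑ x ∈ X, (1 : ℝ) := by simp
      _ ≤ ∑ x ∈ X, ∑ r ∈ Finset.range k,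
          (2 : ℝ) ^ k * (1 / 2) ^ (2 * r + 1) * (1 / 2) ^ (levr X i r x).card :=
          Finset.sum_le_sum h1
      _ = ∑ r ∈ Finset.range k, (2 : ℝ) ^ k * (1 / 2) ^ (2 * r + 1) *
            ∑ x ∈ X, (1 / 2) ^ (levr X i r x).card := by
          rw [Finset.sum_comm]
          apply Finset.sum_congr rfl
          intro r _
          rw [Finset.mul_sum]
      _ ≤ ∑ r ∈ Finset.range k, (2 : ℝ) ^ k * (1 / 2) ^ (2 * r + 1) * 2 ^ r := by
          apply Finset.sum_le_sum
          intro r _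
          exact mul_le_mul_of_nonneg_left (kraft_cells X i r hX) (by positivity)
      _ = 2 ^ k * ∑ r ∈ Finset.range k, (1 / 2 : ℝ) * (1 / 2) ^ r := by
          rw [Finset.mul_sum]
          apply Finset.sum_congr rfl
          intro r _
          have : (2 : ℝ) ^ r * (1 / 2) ^ r = 1 := by
            rw [← mul_pow]; norm_num
          calc (2 : ℝ) ^ k * (1 / 2) ^ (2 * r + 1) * 2 ^ r
              = 2 ^ k * (1 / 2 * (1 / 2) ^ r) * (2 ^ r * (1 / 2) ^ r) := by ring
            _ = _ := by rw [this]; ring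
      _ = 2 ^ k - 1 := by
          rw [← Finset.mul_sum, geom_sum_eq (by norm_num)]
          have : (2 : ℝ) ^ k * (1 / 2) ^ k = 1 := by
            rw [← mul_pow]; norm_num
          linear_combination (-1 : ℝ) * this
  have h3 : ((2 ^ k : ℕ) : ℝ) ≤ X.card := by exact_mod_cast hk
  push_cast at h3
  linarith

/-- the same with nearest siblings -/
lemma leaf_data (X : Finset ℤ) (i k : ℕ) (hX : ∀ z ∈ X, (2 : ℤ) ^ i ≤ z ∧ z < 2 ^ (i + 1))
    (hk : 2 ^ k ≤ X.card) : ∃ x ∈ X, ∃ J : Finset ℕ, ∃ y : ℕ → ℤ,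
      (∀ u ∈ J, y u ∈ X ∧ (2 : ℤ) ^ u ∣ y u - x ∧ ¬ (2 : ℤ) ^ (u + 1) ∣ y u - x) ∧
      ∀ r, k ≤ (J.filter (fun u => (y u - x).natAbs * 2 ^ r < 2 ^ i)).card + 2 * r := by
  classical
  obtain ⟨x, hx, hr⟩ := good_leaf X i k hX hk
  have hch : ∀ u : ℕ, ∃ y : ℤ, u ∈ lev X x → (y ∈ X.erase x ∧ padicValInt 2 (y - x) = u ∧
      ∀ z ∈ X.erase x, padicValInt 2 (z - x) = u → (y - x).natAbs ≤ (z - x).natAbs) := by
    intro u
    by_cases hu : u ∈ lev X x
    · obtain ⟨y0, hy0, hyu⟩ := Finset.mem_image.mp hu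
      have hne : ((X.erase x).filter (fun z => padicValInt 2 (z - x) = u)).Nonempty :=
        ⟨y0, Finset.mem_filter.mpr ⟨hy0, hyu⟩⟩
      obtain ⟨y, hy, hmin⟩ := Finset.exists_min_image _ (fun z => (z - x).natAbs) hne
      obtain ⟨hy1, hy2⟩ := Finset.mem_filter.mp hy
      exact ⟨y, fun _ => ⟨hy1, hy2, fun z hz hzu => hmin z (Finset.mem_filter.mpr ⟨hz, hzu⟩)⟩⟩
    · exact ⟨0, fun h => absurd h hu⟩
  choose y hy using hch
  refine ⟨x, hx, lev X x, y, ?_, ?_⟩
  · intro u hu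
    obtain ⟨h1, h2, _⟩ := hy u hu
    obtain ⟨h3, h4⟩ := Finset.mem_erase.mp h1
    have h5 : y u - x ≠ 0 := sub_ne_zero.mpr h3
    exact ⟨h4, (pow_dvd_iff h5 u).mpr h2.ge, fun h => by
      have := (pow_dvd_iff h5 (u + 1)).mp h
      omega⟩
  · intro r
    refine le_trans (hr r) ?_
    have : (levr X i r x).card ≤
        ((lev X x).filter (fun u => (y u - x).natAbs * 2 ^ r < 2 ^ i)).card := by
      apply Finset.card_le_card
      intro u hu
      obtain ⟨z, hz, hzu⟩ := Finset.mem_image.mp hu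
      obtain ⟨hz1, hz2⟩ := Finset.mem_filter.mp hz
      have hul : u ∈ lev X x := Finset.mem_image.mpr ⟨z, hz1, hzu⟩
      obtain ⟨_, _, h3⟩ := hy u hul
      exact Finset.mem_filter.mpr ⟨hul, lt_of_le_of_lt
        (Nat.mul_le_mul_right _ (h3 z hz1 hzu)) hz2⟩
    omega

/-- selection of close levels -/
lemma sel (J : Finset ℕ) (d : ℕ → ℕ) (M j : ℕ)
    (h : ∀ r, M ≤ (J.filter (fun u => d u * 2 ^ r < 2 ^ j)).card + 2 * r) :
    ∀ K r₀, K + 2 * r₀ ≤ M → ∃ E ⊆ J, E.card = K ∧ (∑ u ∈ E, d u) * 2 ^ r₀ ≤ 4 * 2 ^ j := by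
  classical
  intro K
  induction K using Nat.strong_induction_on with
  | _ K ih =>
    intro r₀ hK
    rcases Nat.lt_or_ge K 2 with h2 | h2
    · -- at most one element
      obtain ⟨E, hE, hEc⟩ := Finset.exists_subset_card_eq
        (s := J.filter (fun u => d u * 2 ^ r₀ < 2 ^ j)) (n := K) (by have := h r₀; omega)
      refine ⟨E, hE.trans (Finset.filter_subset _ _), hEc, ?_⟩
      rw [Finset.sum_mul]
      calc ∑ u ∈ E, d u * 2 ^ r₀ ≤ ∑ u ∈ E, 2 ^ j := by
            apply Finset.sum_le_sum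
            intro u hu
            exact (Finset.mem_filter.mp (hE hu)).2.le
        _ = K * 2 ^ j := by rw [Finset.sum_const, hEc]; rfl
        _ ≤ 4 * 2 ^ j := Nat.mul_le_mul_right _ (by omega)
    · obtain ⟨E', hE', hEc', hs'⟩ := ih (K - 2) (by omega) (r₀ + 1) (by omega)
      have hc : 2 ≤ ((J.filter (fun u => d u * 2 ^ r₀ < 2 ^ j)) \ E').card := by
        have h3 := h r₀
        have h4 := Finset.le_card_sdiff E' (J.filter (fun u => d u * 2 ^ r₀ < 2 ^ j))
        omega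
      obtain ⟨G, hG, hGc⟩ := Finset.exists_subset_card_eq hc
      have hdisj : Disjoint E' G := by
        rw [Finset.disjoint_left]
        intro u hu hu'
        exact (Finset.mem_sdiff.mp (hG hu')).2 hu
      refine ⟨E' ∪ G, Finset.union_subset hE' fun u hu =>
        (Finset.mem_filter.mp (Finset.mem_sdiff.mp (hG hu)).1).1, ?_, ?_⟩
      · rw [Finset.card_union_of_disjoint hdisj]
        omega
      · rw [Finset.sum_union hdisj, add_mul]
        have h5 : (∑ u ∈ G, d u) * 2 ^ r₀ ≤ 2 * 2 ^ j := by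
          rw [Finset.sum_mul]
          calc ∑ u ∈ G, d u * 2 ^ r₀ ≤ ∑ u ∈ G, 2 ^ j := by
                apply Finset.sum_le_sum
                intro u hu
                exact (Finset.mem_filter.mp (Finset.mem_sdiff.mp (hG hu)).1).2.le
            _ = 2 * 2 ^ j := by rw [Finset.sum_const, hGc]; rfl
        rw [pow_succ, ← mul_assoc] at hs'
        omega

end Pool.Agent.Helper57.DS
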