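import Mathlib
import Pool.Agent.Helper57.DS.Kraft

set_option autoImplicit false

namespace Pool.Agent.Helper57.DS

open Finset Pool.Agent.Helper8.Diss

/-- sums with pairwise distinct 2-adic valuations -/
lemma distinct_val (U : Finset ℕ) (d : ℕ → ℤ) (hv1 : ∀ u ∈ U, (2 : ℤ) ^ u ∣ d u)
    (hv2 : ∀ u ∈ U, ¬ (2 : ℤ) ^ (u + 1) ∣ d u) (f : ℕ → ℤ) (hf : ∀ u ∈ U, |f u| ≤ 1)
    (h0 : ∑ u ∈ U, f u * d u = 0) : ∀ u ∈ U, f u = 0 := by
  classical
  by_contra hcon
  push Not at hcon
  set V := U.filter (fun u => f u ≠ 0) with hV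
  have hne : V.Nonempty := by
    obtain ⟨u, hu, h⟩ := hcon
    exact ⟨u, Finset.mem_filter.mpr ⟨hu, h⟩⟩
  have hmem := Finset.min'_mem V hne
  set u0 := V.min' hne with hu0
  obtain ⟨hu0U, hu0f⟩ := Finset.mem_filter.mp hmem
  have hrest : (2 : ℤ) ^ (u0 + 1) ∣ ∑ u ∈ U.erase u0, f u * d u := by
    apply Finset.dvd_sum
    intro u hu
    obtain ⟨h1, h2⟩ := Finset.mem_erase.mp hu
    by_cases hfu : f u = 0
    · rw [hfu, zero_mul]
      exact dvd_zero _
    · have h3 := Finset.min'_le V u (Finset.mem_filter.mpr ⟨h2, hfu⟩)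
      rw [← hu0] at h3
      exact dvd_mul_of_dvd_right ((pow_dvd_pow _ (by omega)).trans (hv1 u h2)) _
  have hsplit : f u0 * d u0 + ∑ u ∈ U.erase u0, f u * d u = ∑ u ∈ U, f u * d u :=
    Finset.add_sum_erase U (fun u => f u * d u) hu0U
  rw [h0] at hsplit
  have h1 : (2 : ℤ) ^ (u0 + 1) ∣ f u0 * d u0 := by
    have : f u0 * d u0 = -∑ u ∈ U.erase u0, f u * d u := by linarith
    rw [this]
    exact dvd_neg.mpr hrest
  apply hv2 u0 hu0U
  have h2 := hf u0 hu0U
  rw [abs_le] at h2
  rcases (by omega : f u0 = 1 ∨ f u0 = -1) with h | h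
  · rwa [h, one_mul] at h1
  · rw [h, neg_one_mul] at h1
    exact (dvd_neg).mp h1

/-- the multi-cluster criterion -/
lemma crit (C U : Finset ℕ) (x : ℕ → ℤ) (own : ℕ → ℕ) (b : ℕ → ℤ)
    (hown : ∀ u ∈ U, own u ∈ C)
    (hv1 : ∀ u ∈ U, (2 : ℤ) ^ u ∣ b u - x (own u))
    (hv2 : ∀ u ∈ U, ¬ (2 : ℤ) ^ (u + 1) ∣ b u - x (own u))
    (hpos : ∀ j ∈ C, 0 < x j)
    (hbig : ∀ j ∈ C, ∑ j' ∈ C.filter (fun j' => j' < j),
      (1 + ((U.filter (fun u => own u = j')).card : ℤ)) * x j'
      + ∑ u ∈ U, |b u - x (own u)| < x j)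
    (e f : ℕ → ℤ) (he : ∀ j ∈ C, |e j| ≤ 1) (hf : ∀ u ∈ U, |f u| ≤ 1)
    (hrel : ∑ j ∈ C, e j * x j + ∑ u ∈ U, f u * b u = 0) :
    (∀ j ∈ C, e j = 0) ∧ (∀ u ∈ U, f u = 0) := by
  classical
  set t : ℕ → ℤ := fun j => e j + ∑ u ∈ U.filter (fun u => own u = j), f u with ht
  have htabs : ∀ j ∈ C, |t j| ≤ 1 + ((U.filter (fun u => own u = j)).card : ℤ) := by
    intro j hj
    calc |t j| ≤ |e j| + |∑ u ∈ U.filter (fun u => own u = j), f u| := abs_add_le _ _
      _ ≤ 1 + ∑ u ∈ U.filter (fun u => own u = j), |f u| :=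
          add_le_add (he j hj) (Finset.abs_sum_le_sum_abs _ _)
      _ ≤ 1 + ∑ u ∈ U.filter (fun u => own u = j), (1 : ℤ) := by
          gcongr with u hu
          exact hf u (Finset.mem_filter.mp hu).1
      _ = _ := by simp
  have hrel2 : ∑ j ∈ C, t j * x j + ∑ u ∈ U, f u * (b u - x (own u)) = 0 := by
    have h1 : ∑ u ∈ U, f u * x (own u)
        = ∑ j ∈ C, (∑ u ∈ U.filter (fun u => own u = j), f u) * x j := by
      rw [← Finset.sum_fiberwise_of_maps_to hown]
      apply Finset.sum_congr rfl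
      intro j _
      rw [Finset.sum_mul]
      apply Finset.sum_congr rfl
      intro u hu
      rw [(Finset.mem_filter.mp hu).2]
    have h2 : ∑ j ∈ C, t j * x j = ∑ j ∈ C, e j * x j + ∑ u ∈ U, f u * x (own u) := by
      rw [h1, ← Finset.sum_add_distrib]
      apply Finset.sum_congr rfl
      intro j _
      rw [ht]
      ring
    have h3 : ∑ u ∈ U, f u * (b u - x (own u))
        = ∑ u ∈ U, f u * b u - ∑ u ∈ U, f u * x (own u) := by
      rw [← Finset.sum_sub_distrib]
      apply Finset.sum_congr rfl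
      intro u _
      ring
    rw [h2, h3]
    linarith
  have ht0 : ∀ j ∈ C, t j = 0 := by
    by_contra hcon
    push Not at hcon
    set V := C.filter (fun j => t j ≠ 0) with hV
    have hne : V.Nonempty := by
      obtain ⟨j, hj, h⟩ := hcon
      exact ⟨j, Finset.mem_filter.mpr ⟨hj, h⟩⟩
    have hmem := Finset.max'_mem V hne
    set j0 := V.max' hne with hj0
    obtain ⟨hj0C, hj0t⟩ := Finset.mem_filter.mp hmem
    have hsum : ∑ j ∈ C, t j * x j
        = t j0 * x j0 + ∑ j ∈ C.filter (fun j => j < j0), t j * x j := by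
      rw [← Finset.add_sum_erase C (fun j => t j * x j) hj0C]
      congr 1
      symm
      apply Finset.sum_subset
      · intro j hj
        obtain ⟨h1, h2⟩ := Finset.mem_filter.mp hj
        exact Finset.mem_erase.mpr ⟨by omega, h1⟩
      · intro j hj hj'
        obtain ⟨h1, h2⟩ := Finset.mem_erase.mp hj
        by_cases htj : t j = 0
        · rw [htj, zero_mul]
        · exfalso
          have h3 := Finset.le_max' V j (Finset.mem_filter.mpr ⟨h2, htj⟩)
          rw [← hj0] at h3
          exact hj' (Finset.mem_filter.mpr ⟨h2, by omega⟩)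
    have hA : |∑ j ∈ C.filter (fun j => j < j0), t j * x j| ≤
        ∑ j' ∈ C.filter (fun j' => j' < j0),
          (1 + ((U.filter (fun u => own u = j')).card : ℤ)) * x j' := by
      refine le_trans (Finset.abs_sum_le_sum_abs _ _) (Finset.sum_le_sum fun j hj => ?_)
      have hjC := (Finset.mem_filter.mp hj).1
      rw [abs_mul, abs_of_pos (hpos j hjC)]
      exact mul_le_mul_of_nonneg_right (htabs j hjC) (hpos j hjC).le
    have hB : |∑ u ∈ U, f u * (b u - x (own u))| ≤ ∑ u ∈ U, |b u - x (own u)| := by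
      refine le_trans (Finset.abs_sum_le_sum_abs _ _) (Finset.sum_le_sum fun u hu => ?_)
      rw [abs_mul]
      have := mul_le_mul_of_nonneg_right (hf u hu) (abs_nonneg (b u - x (own u)))
      linarith
    have hC : x j0 ≤ |t j0 * x j0| := by
      rw [abs_mul, abs_of_pos (hpos j0 hj0C)]
      have h1 : 1 ≤ |t j0| := Int.one_le_abs hj0t
      have := mul_le_mul_of_nonneg_right h1 (hpos j0 hj0C).le
      linarith
    have hD := hbig j0 hj0C
    have hE : t j0 * x j0 = -(∑ j ∈ C.filter (fun j => j < j0), t j * x j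
        + ∑ u ∈ U, f u * (b u - x (own u))) := by
      rw [hsum] at hrel2
      linarith
    rw [hE, abs_neg] at hC
    have := abs_add_le (∑ j ∈ C.filter (fun j => j < j0), t j * x j)
      (∑ u ∈ U, f u * (b u - x (own u)))
    linarith
  have hf0 : ∀ u ∈ U, f u = 0 := by
    apply distinct_val U (fun u => b u - x (own u)) hv1 hv2 f hf
    have h1 : ∑ j ∈ C, t j * x j = 0 := by
      apply Finset.sum_eq_zero
      intro j hj
      rw [ht0 j hj, zero_mul]
    rw [h1, zero_add] at hrel2
    exact hrel2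
  refine ⟨fun j hj => ?_, hf0⟩
  have h1 := ht0 j hj
  have h2 : ∑ u ∈ U.filter (fun u => own u = j), f u = 0 := by
    apply Finset.sum_eq_zero
    intro u hu
    exact hf0 u (Finset.mem_filter.mp hu).1
  rw [ht] at h1
  simp only [h2, add_zero] at h1
  exact h1

lemma abs_ite_sub (p q : Prop) [Decidable p] [Decidable q] :
    |(if p then (1 : ℤ) else 0) - (if q then 1 else 0)| ≤ 1 := by
  split_ifs <;> simp

/-- from indexed to plain sets -/
lemma crit_set (C U : Finset ℕ) (x b : ℕ → ℤ)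
    (h : ∀ e f : ℕ → ℤ, (∀ j ∈ C, |e j| ≤ 1) → (∀ u ∈ U, |f u| ≤ 1) →
      ∑ j ∈ C, e j * x j + ∑ u ∈ U, f u * b u = 0 →
      (∀ j ∈ C, e j = 0) ∧ (∀ u ∈ U, f u = 0)) :
    (C.image x ∪ U.image b).card = C.card + U.card ∧ DissF (C.image x ∪ U.image b) id := by
  classical
  have hx : Set.InjOn x C := by
    intro j hj k hk hjk
    by_contra hne
    have h1 := (h (fun i => (if i = j then 1 else 0) - (if i = k then 1 else 0)) (fun _ => 0)
      (fun i _ => abs_ite_sub _ _)
      (by simp) (by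
        simp only [sub_mul, ite_mul, one_mul, zero_mul, Finset.sum_sub_distrib,
          Finset.sum_ite_eq', Finset.sum_const_zero, add_zero]
        rw [if_pos (by exact_mod_cast hj), if_pos (by exact_mod_cast hk), hjk, sub_self])).1 j
      (by exact_mod_cast hj)
    simp [hne] at h1
  have hb : Set.InjOn b U := by
    intro j hj k hk hjk
    by_contra hne
    have h1 := (h (fun _ => 0) (fun i => (if i = j then 1 else 0) - (if i = k then 1 else 0))
      (by simp)
      (fun i _ => abs_ite_sub _ _)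
      (by
        simp only [sub_mul, ite_mul, one_mul, zero_mul, Finset.sum_sub_distrib,
          Finset.sum_ite_eq', Finset.sum_const_zero, zero_add]
        rw [if_pos (by exact_mod_cast hj), if_pos (by exact_mod_cast hk), hjk, sub_self])).2 j
      (by exact_mod_cast hj)
    simp [hne] at h1
  have hdisj : Disjoint (C.image x) (U.image b) := by
    rw [Finset.disjoint_left]
    intro z hz1 hz2
    obtain ⟨j, hj, hjz⟩ := Finset.mem_image.mp hz1
    obtain ⟨u, hu, huz⟩ := Finset.mem_image.mp hz2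
    have h1 := (h (fun i => if i = j then 1 else 0) (fun i => if i = u then -1 else 0)
      (by intro i _; by_cases h1 : i = j <;> simp [h1])
      (by intro i _; by_cases h1 : i = u <;> simp [h1])
      (by
        simp only [ite_mul, one_mul, zero_mul, neg_mul, Finset.sum_ite_eq']
        rw [if_pos hj, if_pos hu, hjz, huz]
        ring)).1 j hj
    simp at h1
  refine ⟨?_, ?_⟩
  · rw [Finset.card_union_of_disjoint hdisj, Finset.card_image_of_injOn hx,
      Finset.card_image_of_injOn hb]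
  · intro ε hε hsum
    rw [Finset.sum_union hdisj, Finset.sum_image hx, Finset.sum_image hb] at hsum
    obtain ⟨h1, h2⟩ := h (fun j => ε (x j)) (fun u => ε (b u))
      (fun j hj => hε _ (Finset.mem_union_left _ (Finset.mem_image_of_mem _ hj)))
      (fun u hu => hε _ (Finset.mem_union_right _ (Finset.mem_image_of_mem _ hu))) hsum
    intro z hz
    rcases Finset.mem_union.mp hz with hz | hz
    · obtain ⟨j, hj, rfl⟩ := Finset.mem_image.mp hz
      exact h1 j hj
    · obtain ⟨u, hu, rfl⟩ := Finset.mem_image.mp hz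
      exact h2 u hu

end Pool.Agent.Helper57.DS
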