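import Mathlib
import Pool.Agent.Helper57.DS.Crit

set_option autoImplicit false

namespace Pool.Agent.Helper57.DS

open Finset Pool.Agent.Helper8.Diss

/-- chains of octaves; `Ch I k m i` says that a chain with `m` steps starts at `i` -/
inductive Ch (I : Finset ℕ) (k : ℕ → ℕ) : ℕ → ℕ → Prop
  | base (i : ℕ) (hi : i ∈ I) : Ch I k 0 i
  | step (m i j : ℕ) (h : Ch I k m j) (hi : i ∈ I) (hij : i + 10 ≤ j)
      (hk : k i ≤ k j + 2 ^ (j - i - 4)) : Ch I k (m + 1) i

lemma pow_big : ∀ g : ℕ, 10 ≤ g → 4 * g + 1 ≤ 2 ^ (g - 4) := by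
  intro g hg
  induction g, hg using Nat.le_induction with
  | base => norm_num
  | succ g hg ih =>
    have : g + 1 - 4 = (g - 4) + 1 := by omega
    rw [this, pow_succ]
    omega

lemma pick (J : Finset ℕ) (d : ℕ → ℕ) (k i a : ℕ) (U : Finset ℕ) (ha : a ≤ i)
    (hcnt : ∀ r, k ≤ (J.filter (fun u => d u * 2 ^ r < 2 ^ i)).card + 2 * r) :
    ∃ E ⊆ J \ U, E.card = k - 4 * (i - a) - 6 - U.card ∧ (∑ u ∈ E, d u) * 2 ^ (i + 1) ≤ 4 ^ a := by
  classical
  rcases Nat.eq_zero_or_pos (k - 4 * (i - a) - 6 - U.card) with h0 | h0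
  · exact ⟨∅, Finset.empty_subset _, by rw [h0]; rfl, by simp⟩
  · obtain ⟨E, hE, hEc, hs⟩ := sel (J \ U) d (k - U.card) i (by
      intro r
      have h1 := hcnt r
      have h2 : (J.filter (fun u => d u * 2 ^ r < 2 ^ i)).card ≤
          ((J \ U).filter (fun u => d u * 2 ^ r < 2 ^ i)).card + U.card := by
        refine le_trans (Finset.card_le_card ?_) (Finset.card_union_le _ _)
        intro u hu
        obtain ⟨h3, h4⟩ := Finset.mem_filter.mp hu
        by_cases hU : u ∈ U
        · exact Finset.mem_union_right _ hU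
        · exact Finset.mem_union_left _ (Finset.mem_filter.mpr
            ⟨Finset.mem_sdiff.mpr ⟨h3, hU⟩, h4⟩)
      omega) (k - 4 * (i - a) - 6 - U.card) (2 * (i - a) + 3) (by omega)
    refine ⟨E, hE, hEc, ?_⟩
    have h1 : 2 ^ (2 * a) * ((∑ u ∈ E, d u) * 2 ^ (2 * (i - a) + 3))
        ≤ 2 ^ (2 * a) * (4 * 2 ^ i) := Nat.mul_le_mul_left _ hs
    have h2 : 2 ^ (2 * a) * ((∑ u ∈ E, d u) * 2 ^ (2 * (i - a) + 3))
        = ((∑ u ∈ E, d u) * 2 ^ (i + 1)) * 2 ^ (i + 2) := by
      have h3 : (2 : ℕ) ^ (2 * a) * 2 ^ (2 * (i - a) + 3) = 2 ^ (i + 1) * 2 ^ (i + 2) := by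
        rw [← pow_add, ← pow_add]
        congr 1
        omega
      calc 2 ^ (2 * a) * ((∑ u ∈ E, d u) * 2 ^ (2 * (i - a) + 3))
          = (∑ u ∈ E, d u) * (2 ^ (2 * a) * 2 ^ (2 * (i - a) + 3)) := by ring
        _ = (∑ u ∈ E, d u) * (2 ^ (i + 1) * 2 ^ (i + 2)) := by rw [h3]
        _ = _ := by ring
    have h4 : (2 : ℕ) ^ (2 * a) * (4 * 2 ^ i) = 4 ^ a * 2 ^ (i + 2) := by
      rw [pow_mul, pow_add 2 i 2]
      ring
    rw [h2, h4] at h1
    exact Nat.le_of_mul_le_mul_right h1 (by positivity)

lemma build (I : Finset ℕ) (k : ℕ → ℕ) (x : ℕ → ℤ) (J : ℕ → Finset ℕ) (y : ℕ → ℕ → ℤ)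
    (hx : ∀ i ∈ I, (2 : ℤ) ^ i ≤ x i ∧ x i < 2 ^ (i + 1))
    (hcnt : ∀ i ∈ I, ∀ r,
      k i ≤ ((J i).filter (fun u => (y i u - x i).natAbs * 2 ^ r < 2 ^ i)).card + 2 * r)
    (a : ℕ) : ∀ m j, Ch I k m j → a ≤ j → ∃ C U : Finset ℕ, ∃ own : ℕ → ℕ,
      C ⊆ I ∧ j ∈ C ∧ (∀ j' ∈ C, j ≤ j') ∧ C.card = m + 1 ∧
      (∀ u ∈ U, own u ∈ C ∧ u ∈ J (own u)) ∧
      k j ≤ U.card + 4 * (j - a) + 6 ∧
      (∑ u ∈ U, (y (own u) u - x (own u)).natAbs) * 2 ^ j < 4 ^ a ∧
      (∀ j'' ∈ C, 2 * ∑ j' ∈ C.filter (fun j' => j' < j''),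
        (1 + ((U.filter (fun u => own u = j')).card : ℤ)) * x j' + 2 ^ j ≤ 2 ^ j'') := by
  classical
  intro m j hch
  induction hch with
  | base i hi =>
    intro ha
    obtain ⟨E, hE, hEc, hEs⟩ := pick (J i) (fun u => (y i u - x i).natAbs) (k i) i a ∅ ha
      (hcnt i hi)
    refine ⟨{i}, E, fun _ => i, by simpa using hi, by simp, by simp, by simp, ?_, ?_, ?_, ?_⟩
    · intro u hu
      exact ⟨by simp, (Finset.mem_sdiff.mp (hE hu)).1⟩
    · simp only [Finset.card_empty] at hEc
      omega
    · have hp : 0 < 4 ^ a := by positivity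
      rw [pow_succ] at hEs
      simp only at hEs ⊢
      set S := ∑ u ∈ E, (y i u - x i).natAbs
      have h1 : 2 * (S * 2 ^ i) ≤ 4 ^ a := by
        calc 2 * (S * 2 ^ i) = S * (2 ^ i * 2) := by ring
          _ ≤ _ := hEs
      omega
    · intro j'' hj''
      rw [Finset.mem_singleton] at hj''
      subst hj''
      have : ({j''} : Finset ℕ).filter (fun j' => j' < j'') = ∅ := by
        rw [Finset.filter_eq_empty_iff]
        intro z hz
        rw [Finset.mem_singleton] at hz
        omega
      rw [this]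
      simp
  | step m i j h hi hij hk ih =>
    intro ha
    obtain ⟨C, U, own, hCI, hjC, hCj, hCc, hUo, hUc, hUs, hUsum⟩ := ih (by omega)
    obtain ⟨E, hE, hEc, hEs⟩ := pick (J i) (fun u => (y i u - x i).natAbs) (k i) i a U ha
      (hcnt i hi)
    have hiC : i ∉ C := fun h => by
      have := hCj i h
      omega
    have hdisj : Disjoint U E := by
      rw [Finset.disjoint_left]
      intro u hu hu'
      exact (Finset.mem_sdiff.mp (hE hu')).2 hu
    have hUE : ∀ u ∈ U, u ∉ E := fun u hu hu' => Finset.disjoint_left.mp hdisj hu hu'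
    refine ⟨insert i C, U ∪ E, fun u => if u ∈ E then i else own u, ?_, by simp, ?_, ?_, ?_,
      ?_, ?_, ?_⟩
    · exact Finset.insert_subset hi hCI
    · intro j' hj'
      rcases Finset.mem_insert.mp hj' with rfl | hj'
      · exact le_rfl
      · have := hCj j' hj'
        omega
    · rw [Finset.card_insert_of_notMem hiC, hCc]
    · intro u hu
      by_cases hE' : u ∈ E
      · simp only [hE', if_true]
        exact ⟨Finset.mem_insert_self _ _, (Finset.mem_sdiff.mp (hE hE')).1⟩
      · simp only [hE', if_false]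
        have hu' : u ∈ U := by
          rcases Finset.mem_union.mp hu with h | h
          · exact h
          · exact absurd h hE'
        exact ⟨Finset.mem_insert_of_mem (hUo u hu').1, (hUo u hu').2⟩
    · rw [Finset.card_union_of_disjoint hdisj, hEc]
      omega
    · have hs1 : ∑ u ∈ U ∪ E, (y (if u ∈ E then i else own u) u
          - x (if u ∈ E then i else own u)).natAbs
          = ∑ u ∈ U, (y (own u) u - x (own u)).natAbs + ∑ u ∈ E, (y i u - x i).natAbs := by
        rw [Finset.sum_union hdisj]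
        congr 1
        · apply Finset.sum_congr rfl
          intro u hu
          rw [if_neg (hUE u hu)]
        · apply Finset.sum_congr rfl
          intro u hu
          rw [if_pos hu]
      rw [hs1]
      set S1 := ∑ u ∈ U, (y (own u) u - x (own u)).natAbs
      set S2 := ∑ u ∈ E, (y i u - x i).natAbs
      have h1 : S1 * 2 ^ (i + 1) ≤ S1 * 2 ^ j :=
        Nat.mul_le_mul_left _ (Nat.pow_le_pow_right (by norm_num) (by omega))
      have h2 : 2 * ((S1 + S2) * 2 ^ i) = S1 * 2 ^ (i + 1) + S2 * 2 ^ (i + 1) := by ring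
      omega
    · intro j'' hj''
      rcases Finset.mem_insert.mp hj'' with rfl | hj''
      · have : (insert j'' C).filter (fun j' => j' < j'') = ∅ := by
          rw [Finset.filter_eq_empty_iff]
          intro z hz
          rcases Finset.mem_insert.mp hz with rfl | hz
          · omega
          · have := hCj z hz
            omega
        rw [this]
        simp
      · have hlt : i < j'' := by
          have := hCj j'' hj''
          omega
        have hfil : (insert i C).filter (fun j' => j' < j'')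
            = insert i (C.filter (fun j' => j' < j'')) := by
          rw [Finset.filter_insert, if_pos hlt]
        have hi' : i ∉ C.filter (fun j' => j' < j'') := fun h => hiC (Finset.mem_filter.mp h).1
        rw [hfil, Finset.sum_insert hi']
        have hcE : ((U ∪ E).filter (fun u => (if u ∈ E then i else own u) = i)) = E := by
          ext u
          rw [Finset.mem_filter]
          constructor
          · rintro ⟨h1, h2⟩
            by_contra hne
            rw [if_neg hne] at h2
            have hu' : u ∈ U := by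
              rcases Finset.mem_union.mp h1 with h | h
              · exact h
              · exact absurd h hne
            apply hiC
            rw [← h2]
            exact (hUo u hu').1
          · intro h1
            exact ⟨Finset.mem_union_right _ h1, if_pos h1⟩
        have hcU : ∀ j' ∈ C, ((U ∪ E).filter (fun u => (if u ∈ E then i else own u) = j'))
            = U.filter (fun u => own u = j') := by
          intro j' hj'
          ext u
          rw [Finset.mem_filter, Finset.mem_filter]
          constructor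
          · rintro ⟨h1, h2⟩
            by_cases hE' : u ∈ E
            · rw [if_pos hE'] at h2
              exact absurd hj' (by rw [← h2]; exact hiC)
            · rw [if_neg hE'] at h2
              rcases Finset.mem_union.mp h1 with h | h
              · exact ⟨h, h2⟩
              · exact absurd h hE'
          · rintro ⟨h1, h2⟩
            refine ⟨Finset.mem_union_left _ h1, ?_⟩
            rw [if_neg (hUE u h1)]
            exact h2
        rw [hcE]
        have hsum : ∑ j' ∈ C.filter (fun j' => j' < j''),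
            (1 + (((U ∪ E).filter (fun u => (if u ∈ E then i else own u) = j')).card : ℤ)) * x j'
            = ∑ j' ∈ C.filter (fun j' => j' < j''),
            (1 + ((U.filter (fun u => own u = j')).card : ℤ)) * x j' := by
          apply Finset.sum_congr rfl
          intro j' hj'
          rw [hcU j' (Finset.mem_filter.mp hj').1]
        rw [hsum]
        have hold := hUsum j'' hj''
        -- size of the new cluster
        have hn : E.card + 1 ≤ 2 ^ (j - i - 3) := by
          have h1 := pow_big (j - i) (by omega)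
          have h2 : j - i - 3 = (j - i - 4) + 1 := by omega
          rw [h2, pow_succ]
          have h3 : E.card ≤ 4 * (j - i) + 2 ^ (j - i - 4) := by
            rw [hEc]
            generalize 2 ^ (j - i - 4) = w at *
            omega
          omega
        have hx1 := (hx i hi).1
        have hx2 := (hx i hi).2
        have hxp : 0 ≤ x i := le_trans (by positivity) hx1
        have h1 : (1 + (E.card : ℤ)) * x i ≤ 2 ^ (j - i - 3) * 2 ^ (i + 1) := by
          have h2 : (1 + (E.card : ℤ)) ≤ 2 ^ (j - i - 3) := by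
            have : ((E.card + 1 : ℕ) : ℤ) ≤ ((2 ^ (j - i - 3) : ℕ) : ℤ) := by exact_mod_cast hn
            push_cast at this
            linarith
          exact mul_le_mul h2 hx2.le hxp (by positivity)
        have h2 : (2 : ℤ) ^ (j - i - 3) * 2 ^ (i + 1) * 4 = 2 ^ j := by
          have : (4 : ℤ) = 2 ^ 2 := by norm_num
          rw [this, ← pow_add, ← pow_add]
          congr 1
          omega
        have h3 : (2 : ℤ) ^ i * 2 ≤ 2 ^ j := by
          rw [← pow_succ]
          exact pow_le_pow_right₀ (by norm_num) (by omega)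
        linarith

/-- a chain gives a dissociated set -/
lemma chain_diss (P : Finset ℤ) (I : Finset ℕ) (k : ℕ → ℕ) (x : ℕ → ℤ) (J : ℕ → Finset ℕ)
    (y : ℕ → ℕ → ℤ)
    (hx : ∀ i ∈ I, (2 : ℤ) ^ i ≤ x i ∧ x i < 2 ^ (i + 1)) (hxP : ∀ i ∈ I, x i ∈ P)
    (hy : ∀ i ∈ I, ∀ u ∈ J i, y i u ∈ P ∧ (2 : ℤ) ^ u ∣ y i u - x i ∧
      ¬ (2 : ℤ) ^ (u + 1) ∣ y i u - x i)
    (hcnt : ∀ i ∈ I, ∀ r,
      k i ≤ ((J i).filter (fun u => (y i u - x i).natAbs * 2 ^ r < 2 ^ i)).card + 2 * r)
    (m i : ℕ) (hch : Ch I k m i) : ∃ B ⊆ P, DissF B id ∧ k i + m ≤ B.card + 5 := by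
  classical
  obtain ⟨C, U, own, hCI, hjC, hCj, hCc, hUo, hUc, hUs, hUsum⟩ :=
    build I k x J y hx hcnt i m i hch le_rfl
  have hS : (∑ u ∈ U, (y (own u) u - x (own u)).natAbs) < 2 ^ i := by
    have h1 : (4 : ℕ) ^ i = 2 ^ i * 2 ^ i := by
      rw [← mul_pow]
      norm_num
    rw [h1] at hUs
    exact Nat.lt_of_mul_lt_mul_right hUs
  have hS' : ∑ u ∈ U, |y (own u) u - x (own u)| < 2 ^ i := by
    have h1 : (((∑ u ∈ U, (y (own u) u - x (own u)).natAbs : ℕ)) : ℤ) < ((2 ^ i : ℕ) : ℤ) := by
      exact_mod_cast hS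
    push_cast at h1
    exact h1
  obtain ⟨h1, h2⟩ := crit_set C U x (fun u => y (own u) u)
    (crit C U x own (fun u => y (own u) u) (fun u hu => (hUo u hu).1)
      (fun u hu => (hy _ (hCI (hUo u hu).1) u (hUo u hu).2).2.1)
      (fun u hu => (hy _ (hCI (hUo u hu).1) u (hUo u hu).2).2.2)
      (fun j hj => lt_of_lt_of_le (by positivity) (hx j (hCI hj)).1) (by
        intro j hj
        have h3 := hUsum j hj
        have h4 := (hx j (hCI hj)).1
        have h5 : (2 : ℤ) ^ i ≤ 2 ^ j := pow_le_pow_right₀ (by norm_num) (hCj j hj)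
        linarith))
  refine ⟨_, ?_, h2, ?_⟩
  · intro z hz
    rcases Finset.mem_union.mp hz with hz | hz
    · obtain ⟨j, hj, rfl⟩ := Finset.mem_image.mp hz
      exact hxP j (hCI hj)
    · obtain ⟨u, hu, rfl⟩ := Finset.mem_image.mp hz
      exact (hy _ (hCI (hUo u hu).1) u (hUo u hu).2).1
  · rw [h1]
    omega

end Pool.Agent.Helper57.DS
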