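import Mathlib
import Pool.Agent.Helper57.DS.Build

set_option autoImplicit false

namespace Pool.Agent.Helper57.DS

open Finset Pool.Agent.Helper8.Diss

lemma geo (S : Finset ℕ) : ∑ i ∈ S, ((1 : ℝ) / 2) ^ (i + 1) ≤ 1 := by
  have hsub : S ⊆ Finset.range (S.sup id + 1) := by
    intro i hi
    rw [Finset.mem_range]
    have : id i ≤ S.sup id := Finset.le_sup hi
    simp only [id] at this ⊢
    omega
  refine le_trans (Finset.sum_le_sum_of_subset_of_nonneg hsub fun i _ _ => by positivity) ?_
  have h : ∀ n : ℕ, ∑ i ∈ Finset.range n, ((1 : ℝ) / 2) ^ (i + 1) = 1 - (1 / 2) ^ n := by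
    intro n
    induction n with
    | zero => simp
    | succ n ih =>
      rw [Finset.sum_range_succ, ih, pow_succ]
      ring
  rw [h]
  have : (0 : ℝ) ≤ (1 / 2) ^ (S.sup id + 1) := by positivity
  linarith

/-- counting by longest chains: one class -/
lemma count_class (I : Finset ℕ) (k N : ℕ → ℕ) (D m : ℕ) (hm : m ≤ D)
    (hN : ∀ i ∈ I, N i < 2 ^ (k i + 1)) (hk : ∀ i ∈ I, k i + m ≤ D)
    (hno : ∀ i ∈ I, ∀ j ∈ I, i + 10 ≤ j → k j + 2 ^ (j - i - 4) < k i) :
    ((∑ i ∈ I, N i : ℕ) : ℝ) ≤ 21 * 2 ^ (D - m) := by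
  classical
  rcases I.eq_empty_or_nonempty with hI | hI
  · rw [hI]
    simp
  have hmem := Finset.min'_mem I hI
  set a := I.min' hI with ha
  have hmin : ∀ i ∈ I, a ≤ i := fun i hi => Finset.min'_le I i hi
  rw [← Finset.sum_filter_add_sum_filter_not I (fun i => i < a + 10)]
  have h1 : ((∑ i ∈ I.filter (fun i => i < a + 10), N i : ℕ) : ℝ) ≤ 20 * 2 ^ (D - m) := by
    have h2 : ∑ i ∈ I.filter (fun i => i < a + 10), N i ≤ 10 * (2 * 2 ^ (D - m)) := by
      calc ∑ i ∈ I.filter (fun i => i < a + 10), N i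
          ≤ ∑ i ∈ I.filter (fun i => i < a + 10), 2 * 2 ^ (D - m) := by
            apply Finset.sum_le_sum
            intro i hi
            have hiI := (Finset.mem_filter.mp hi).1
            refine (hN i hiI).le.trans ?_
            rw [pow_succ, mul_comm]
            apply Nat.mul_le_mul_left
            apply Nat.pow_le_pow_right (by norm_num)
            have := hk i hiI
            omega
        _ = (I.filter (fun i => i < a + 10)).card * (2 * 2 ^ (D - m)) := by
            rw [Finset.sum_const, smul_eq_mul]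
        _ ≤ 10 * (2 * 2 ^ (D - m)) := by
            apply Nat.mul_le_mul_right
            calc (I.filter (fun i => i < a + 10)).card ≤ (Finset.Ico a (a + 10)).card := by
                  apply Finset.card_le_card
                  intro i hi
                  obtain ⟨h3, h4⟩ := Finset.mem_filter.mp hi
                  exact Finset.mem_Ico.mpr ⟨hmin i h3, h4⟩
              _ = 10 := by rw [Nat.card_Ico]; omega
    calc ((∑ i ∈ I.filter (fun i => i < a + 10), N i : ℕ) : ℝ)
        ≤ ((10 * (2 * 2 ^ (D - m)) : ℕ) : ℝ) := by exact_mod_cast h2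
      _ = 20 * 2 ^ (D - m) := by push_cast; ring
  have h2 : ((∑ i ∈ I.filter (fun i => ¬ i < a + 10), N i : ℕ) : ℝ) ≤ 2 ^ (D - m) := by
    push_cast
    have h3 : ∀ i ∈ I.filter (fun i => ¬ i < a + 10),
        (N i : ℝ) ≤ 2 ^ (D - m) * ((1 / 2) ^ ((i - a - 1) + 1)) := by
      intro i hi
      obtain ⟨hiI, hia⟩ := Finset.mem_filter.mp hi
      push Not at hia
      have h4 := hno a hmem i hiI hia
      have h5 := hk a hmem
      have h6 := pow_big (i - a) (by omega)
      have h7 : N i * 2 ^ (i - a) ≤ 2 ^ (D - m) := by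
        calc N i * 2 ^ (i - a) ≤ 2 ^ (k i + 1) * 2 ^ (i - a) :=
              Nat.mul_le_mul_right _ (hN i hiI).le
          _ = 2 ^ (k i + 1 + (i - a)) := by rw [← pow_add]
          _ ≤ 2 ^ (D - m) := Nat.pow_le_pow_right (by norm_num) (by omega)
      have h8 : ((N i * 2 ^ (i - a) : ℕ) : ℝ) ≤ ((2 ^ (D - m) : ℕ) : ℝ) := by exact_mod_cast h7
      push_cast at h8
      have h9 : i - a - 1 + 1 = i - a := by omega
      rw [h9]
      have h10 : (2 : ℝ) ^ (i - a) * (1 / 2) ^ (i - a) = 1 := by
        rw [← mul_pow]; norm_num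
      calc (N i : ℝ) = N i * 2 ^ (i - a) * (1 / 2) ^ (i - a) := by
            rw [mul_assoc, h10, mul_one]
        _ ≤ 2 ^ (D - m) * (1 / 2) ^ (i - a) := mul_le_mul_of_nonneg_right h8 (by positivity)
    refine le_trans (Finset.sum_le_sum h3) ?_
    rw [← Finset.mul_sum]
    have h4 : ∑ i ∈ I.filter (fun i => ¬ i < a + 10), ((1 : ℝ) / 2) ^ ((i - a - 1) + 1)
        = ∑ d ∈ (I.filter (fun i => ¬ i < a + 10)).image (fun i => i - a - 1),
          ((1 : ℝ) / 2) ^ (d + 1) := by
      rw [Finset.sum_image]
      intro i hi j hj hij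
      have h5 := (Finset.mem_filter.mp hi).2
      have h6 := (Finset.mem_filter.mp hj).2
      simp only at hij
      omega
    rw [h4]
    have h5 := geo ((I.filter (fun i => ¬ i < a + 10)).image (fun i => i - a - 1))
    have h6 : (0 : ℝ) < 2 ^ (D - m) := by positivity
    nlinarith
  push_cast at h1 h2 ⊢
  linarith

/-- counting by longest chains -/
lemma count (I : Finset ℕ) (k N : ℕ → ℕ) (D : ℕ)
    (hN : ∀ i ∈ I, N i < 2 ^ (k i + 1)) (hD : ∀ m i, Ch I k m i → k i + m ≤ D) :
    ∑ i ∈ I, N i ≤ 42 * 2 ^ D := by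
  classical
  set μ : ℕ → ℕ := fun i => Nat.findGreatest (fun m => Ch I k m i) D with hμ
  have hμ1 : ∀ i ∈ I, Ch I k (μ i) i := by
    intro i hi
    exact Nat.findGreatest_spec (P := fun m => Ch I k m i) (m := 0) (Nat.zero_le _) (Ch.base i hi)
  have hμ2 : ∀ m i, Ch I k m i → m ≤ μ i := by
    intro m i h
    have := hD m i h
    exact Nat.le_findGreatest (by omega) h
  have hmaps : ∀ i ∈ I, μ i ∈ Finset.range (D + 1) := by
    intro i hi
    have := hD _ _ (hμ1 i hi)
    rw [Finset.mem_range]
    omega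
  have h1 : ((∑ i ∈ I, N i : ℕ) : ℝ) ≤ 42 * 2 ^ D := by
    rw [← Finset.sum_fiberwise_of_maps_to hmaps]
    push_cast
    calc ∑ m ∈ Finset.range (D + 1), ∑ i ∈ I.filter (fun i => μ i = m), (N i : ℝ)
        ≤ ∑ m ∈ Finset.range (D + 1), 21 * 2 ^ (D - m) := by
          apply Finset.sum_le_sum
          intro m hm
          rw [Finset.mem_range] at hm
          have := count_class (I.filter (fun i => μ i = m)) k N D m (by omega)
            (fun i hi => hN i (Finset.mem_filter.mp hi).1) (by
              intro i hi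
              obtain ⟨hiI, him⟩ := Finset.mem_filter.mp hi
              have := hD _ _ (hμ1 i hiI)
              rw [him] at this
              exact this) (by
              intro i hi j hj hij
              obtain ⟨hiI, him⟩ := Finset.mem_filter.mp hi
              obtain ⟨hjI, hjm⟩ := Finset.mem_filter.mp hj
              by_contra hcon
              push Not at hcon
              have h3 := hμ1 j hjI
              rw [hjm] at h3
              have h4 := hμ2 _ _ (Ch.step m i j h3 hiI hij hcon)
              omega)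
          push_cast at this
          exact this
      _ ≤ 42 * 2 ^ D := by
          rw [← Finset.mul_sum]
          have h2 : ∑ m ∈ Finset.range (D + 1), (2 : ℝ) ^ (D - m) ≤ 2 * 2 ^ D := by
            have h3 : ∀ m ∈ Finset.range (D + 1), (2 : ℝ) ^ (D - m)
                = 2 * 2 ^ D * (1 / 2) ^ (m + 1) := by
              intro m hm
              rw [Finset.mem_range] at hm
              obtain ⟨s, rfl⟩ : ∃ s, D = m + s := ⟨D - m, by omega⟩
              have h4 : m + s - m = s := by omega
              have h5 : (2 : ℝ) ^ m * (1 / 2) ^ m = 1 := by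
                rw [← mul_pow]; norm_num
              rw [h4, pow_add, pow_succ (1 / 2 : ℝ)]
              linear_combination (-(2 : ℝ) ^ s) * h5
            rw [Finset.sum_congr rfl h3, ← Finset.mul_sum]
            have h6 := geo (Finset.range (D + 1))
            have h7 : (0 : ℝ) < 2 * 2 ^ D := by positivity
            nlinarith
          linarith
  exact_mod_cast h1

/-- every finite set of positive integers has a large dissociated subset -/
lemma int_const (P : Finset ℤ) (hpos : ∀ z ∈ P, 0 < z) :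
    ∃ B ⊆ P, DissF B id ∧ P.card ≤ 1344 * 2 ^ B.card := by
  classical
  rcases P.eq_empty_or_nonempty with hP | hP
  · refine ⟨∅, Finset.empty_subset _, ?_, by simp [hP]⟩
    intro ε _ _ i hi
    simp at hi
  set oct : ℕ → Finset ℤ := fun i => P.filter (fun z => (2 : ℤ) ^ i ≤ z ∧ z < 2 ^ (i + 1))
    with hoct
  set lg : ℤ → ℕ := fun z => Nat.log 2 z.toNat with hlg
  have hmem : ∀ z ∈ P, z ∈ oct (lg z) := by
    intro z hz
    have h0 := hpos z hz
    have h1 : z.toNat ≠ 0 := by omega
    have h2 := Nat.pow_log_le_self 2 h1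
    have h3 := Nat.lt_pow_succ_log_self (b := 2) (by norm_num) z.toNat
    have h4 : (z.toNat : ℤ) = z := Int.toNat_of_nonneg h0.le
    refine Finset.mem_filter.mpr ⟨hz, ?_, ?_⟩
    · rw [← h4]
      simp only [hlg, h4]
      have : ((2 ^ Nat.log 2 z.toNat : ℕ) : ℤ) ≤ (z.toNat : ℤ) := by exact_mod_cast h2
      push_cast at this
      rw [h4] at this
      exact this
    · have : (z.toNat : ℤ) < ((2 ^ (Nat.log 2 z.toNat).succ : ℕ) : ℤ) := by exact_mod_cast h3
      push_cast at this
      rw [h4] at this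
      exact this
  set I : Finset ℕ := P.image lg with hI
  set N : ℕ → ℕ := fun i => (oct i).card with hN
  set k : ℕ → ℕ := fun i => Nat.log 2 (N i) with hk
  have hNpos : ∀ i ∈ I, N i ≠ 0 := by
    intro i hi
    obtain ⟨z, hz, rfl⟩ := Finset.mem_image.mp hi
    exact (Finset.card_pos.mpr ⟨z, hmem z hz⟩).ne'
  have hPc : P.card ≤ ∑ i ∈ I, N i := by
    rw [Finset.card_eq_sum_card_image lg P]
    apply Finset.sum_le_sum
    intro i _
    apply Finset.card_le_card
    intro z hz
    obtain ⟨h1, h2⟩ := Finset.mem_filter.mp hz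
    rw [← h2]
    exact hmem z h1
  have hdata : ∀ i : ℕ, ∃ x : ℤ, ∃ J : Finset ℕ, ∃ y : ℕ → ℤ, i ∈ I →
      (x ∈ oct i ∧ (∀ u ∈ J, y u ∈ oct i ∧ (2 : ℤ) ^ u ∣ y u - x ∧ ¬ (2 : ℤ) ^ (u + 1) ∣ y u - x) ∧
      ∀ r, k i ≤ (J.filter (fun u => (y u - x).natAbs * 2 ^ r < 2 ^ i)).card + 2 * r) := by
    intro i
    by_cases hi : i ∈ I
    · obtain ⟨x, hx, J, y, h1, h2⟩ := leaf_data (oct i) i (k i)
        (fun z hz => (Finset.mem_filter.mp hz).2) (Nat.pow_log_le_self 2 (hNpos i hi))
      exact ⟨x, J, y, fun _ => ⟨hx, h1, h2⟩⟩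
    · exact ⟨0, ∅, fun _ => 0, fun h => absurd h hi⟩
  choose x J y hxy using hdata
  have hch : ∀ m i, Ch I k m i → ∃ B ⊆ P, DissF B id ∧ k i + m ≤ B.card + 5 := by
    intro m i h
    exact chain_diss P I k x J y
      (fun i hi => (Finset.mem_filter.mp (hxy i hi).1).2)
      (fun i hi => (Finset.mem_filter.mp (hxy i hi).1).1)
      (fun i hi u hu => ⟨(Finset.mem_filter.mp ((hxy i hi).2.1 u hu).1).1,
        ((hxy i hi).2.1 u hu).2⟩)
      (fun i hi => (hxy i hi).2.2) m i h
  -- the best chain
  obtain ⟨z, hz⟩ := hP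
  have hzI : lg z ∈ I := Finset.mem_image_of_mem _ hz
  set D := Nat.findGreatest (fun v => ∃ m i, Ch I k m i ∧ k i + m = v) (P.card + 5) with hD
  have hbound : ∀ m i, Ch I k m i → k i + m ≤ P.card + 5 := by
    intro m i h
    obtain ⟨B, hB, _, hBc⟩ := hch m i h
    have := Finset.card_le_card hB
    omega
  have hspec : ∃ m i, Ch I k m i ∧ k i + m = D := by
    have h0 := hbound 0 (lg z) (Ch.base _ hzI)
    exact Nat.findGreatest_spec (P := fun v => ∃ m i, Ch I k m i ∧ k i + m = v)
      h0 ⟨0, lg z, Ch.base _ hzI, rfl⟩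
  have hmax : ∀ m i, Ch I k m i → k i + m ≤ D := by
    intro m i h
    exact Nat.le_findGreatest (hbound m i h) ⟨m, i, h, rfl⟩
  obtain ⟨m, i, hmi, hval⟩ := hspec
  obtain ⟨B, hB, hBd, hBc⟩ := hch m i hmi
  refine ⟨B, hB, hBd, ?_⟩
  have hcount := count I k N D (fun i _ => Nat.lt_pow_succ_log_self (by norm_num) _) hmax
  calc P.card ≤ 42 * 2 ^ D := hPc.trans hcount
    _ ≤ 42 * 2 ^ (B.card + 5) :=
        Nat.mul_le_mul_left _ (Nat.pow_le_pow_right (by norm_num) (by omega))
    _ = 1344 * 2 ^ B.card := by rw [pow_add]; ring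

/-- reals -/
theorem real_const (A : Finset ℝ) :
    ∃ B ⊆ A, A.card ≤ 2689 * 2 ^ B.card ∧ AddDissociated (B : Set ℝ) := by
  classical
  -- a large one-signed part
  obtain ⟨S, hSA, hS0, hSadd, hSc⟩ : ∃ S ⊆ A, (∀ a ∈ S, a ≠ 0) ∧
      (∀ a ∈ S, ∀ b ∈ S, a ≠ b → a + b ≠ 0) ∧ A.card ≤ 2 * S.card + 1 := by
    set P := A.filter (fun a => 0 < a) with hP
    set N := A.filter (fun a => a < 0) with hN
    have hcov : A ⊆ insert 0 (P ∪ N) := by
      intro a ha
      rcases lt_trichotomy a 0 with h | h | h
      · exact Finset.mem_insert_of_mem (Finset.mem_union_right _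
          (Finset.mem_filter.mpr ⟨ha, h⟩))
      · rw [h]; exact Finset.mem_insert_self _ _
      · exact Finset.mem_insert_of_mem (Finset.mem_union_left _
          (Finset.mem_filter.mpr ⟨ha, h⟩))
    have h1 : A.card ≤ P.card + N.card + 1 := by
      calc A.card ≤ (insert 0 (P ∪ N)).card := Finset.card_le_card hcov
        _ ≤ (P ∪ N).card + 1 := Finset.card_insert_le _ _
        _ ≤ P.card + N.card + 1 := by
            have := Finset.card_union_le P N
            omega
    rcases le_total N.card P.card with h | h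
    · refine ⟨P, Finset.filter_subset _ _, ?_, ?_, by omega⟩
      · intro a ha
        exact (Finset.mem_filter.mp ha).2.ne'
      · intro a ha b hb _
        have h1 := (Finset.mem_filter.mp ha).2
        have h2 := (Finset.mem_filter.mp hb).2
        positivity
    · refine ⟨N, Finset.filter_subset _ _, ?_, ?_, by omega⟩
      · intro a ha
        exact (Finset.mem_filter.mp ha).2.ne
      · intro a ha b hb _
        have h1 := (Finset.mem_filter.mp ha).2
        have h2 := (Finset.mem_filter.mp hb).2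
        exact (add_neg h1 h2).ne
  obtain ⟨w, hw0, hwabs, hwrel⟩ := exists_weights S hS0 hSadd
  have hinj : Set.InjOn (fun a => |w a|) S := fun a ha b hb hab =>
    hwabs a ha b hb hab
  obtain ⟨B', hB', hBd', hBc'⟩ := int_const (S.image (fun a => |w a|)) (by
    intro z hz
    obtain ⟨a, ha, rfl⟩ := Finset.mem_image.mp hz
    exact abs_pos.mpr (hw0 a ha))
  rw [Finset.card_image_of_injOn hinj] at hBc'
  set B := S.filter (fun a => |w a| ∈ B') with hB
  have hBS : B ⊆ S := Finset.filter_subset _ _
  have himg : B.image (fun a => |w a|) = B' := by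
    ext z
    rw [Finset.mem_image]
    constructor
    · rintro ⟨a, ha, rfl⟩
      exact (Finset.mem_filter.mp ha).2
    · intro hz
      obtain ⟨a, ha, rfl⟩ := Finset.mem_image.mp (hB' hz)
      exact ⟨a, Finset.mem_filter.mpr ⟨ha, hz⟩, rfl⟩
  have hinjB : Set.InjOn (fun a => |w a|) B := hinj.mono (by exact_mod_cast hBS)
  have hcard : B.card = B'.card := by
    rw [← himg, Finset.card_image_of_injOn hinjB]
  have hDiss : DissF B w := by
    intro ε hε hsum
    -- inverse map
    obtain ⟨g, hg⟩ : ∃ g : ℤ → ℝ, ∀ a ∈ B, g |w a| = a := by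
      refine ⟨fun z => if h : ∃ a ∈ B, |w a| = z then h.choose else 0, ?_⟩
      intro a ha
      have hex : ∃ a' ∈ B, |w a'| = |w a| := ⟨a, ha, rfl⟩
      simp only [dif_pos hex]
      exact hinjB (by exact_mod_cast hex.choose_spec.1) (by exact_mod_cast ha)
        hex.choose_spec.2
    have h1 := hBd' (fun z => ε (g z) * SignType.sign (w (g z))) (by
      intro z hz
      rw [← himg] at hz
      obtain ⟨a, ha, rfl⟩ := Finset.mem_image.mp hz
      rw [hg a ha, abs_mul]
      have h2 := hε a ha
      have h3 : |((SignType.sign (w a) : SignType) : ℤ)| ≤ 1 := by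
        rcases lt_trichotomy (w a) 0 with h | h | h
        · simp [sign_neg h]
        · simp [h]
        · simp [sign_pos h]
      calc |ε a| * |((SignType.sign (w a) : SignType) : ℤ)| ≤ 1 * 1 :=
            mul_le_mul h2 h3 (abs_nonneg _) (by norm_num)
        _ = 1 := one_mul 1) (by
      rw [← himg, Finset.sum_image hinjB, ← hsum]
      apply Finset.sum_congr rfl
      intro a ha
      simp only [id]
      rw [hg a ha, mul_assoc, sign_mul_abs])
    intro a ha
    have h2 := h1 |w a| (by rw [← himg]; exact Finset.mem_image_of_mem _ ha)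
    rw [hg a ha] at h2
    rcases mul_eq_zero.mp h2 with h | h
    · exact h
    · exfalso
      have h3 := hw0 a (hBS ha)
      rcases lt_or_gt_of_ne h3 with h4 | h4
      · simp [sign_neg h4] at h
      · simp [sign_pos h4] at h
  refine ⟨B, hBS.trans hSA, ?_, ?_⟩
  · rw [hcard]
    have : 1 ≤ 2 ^ B'.card := Nat.one_le_two_pow
    omega
  · intro t ht u hu htu
    have htB : t ⊆ B := by exact_mod_cast ht
    have huB : u ⊆ B := by exact_mod_cast hu
    have hrel := hwrel t (htB.trans hBS) u (huB.trans hBS) htu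
    have h1 := hDiss (fun a => (if a ∈ t then 1 else 0) - (if a ∈ u then 1 else 0)) (by
      intro a _
      exact abs_ite_sub _ _) (by
      have ht' : ∑ a ∈ B, (if a ∈ t then (1 : ℤ) else 0) * w a = ∑ a ∈ t, w a := by
        rw [← Finset.sum_subset htB]
        · apply Finset.sum_congr rfl
          intro a ha
          rw [if_pos ha, one_mul]
        · intro a _ ha
          rw [if_neg ha, zero_mul]
      have hu' : ∑ a ∈ B, (if a ∈ u then (1 : ℤ) else 0) * w a = ∑ a ∈ u, w a := by
        rw [← Finset.sum_subset huB]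
        · apply Finset.sum_congr rfl
          intro a ha
          rw [if_pos ha, one_mul]
        · intro a _ ha
          rw [if_neg ha, zero_mul]
      simp only [sub_mul, Finset.sum_sub_distrib]
      rw [ht', hu', hrel, sub_self])
    ext a
    constructor
    · intro ha
      by_contra hau
      have := h1 a (htB ha)
      simp [ha, hau] at this
    · intro ha
      by_contra hat
      have := h1 a (huB ha)
      simp [ha, hat] at this

end Pool.Agent.Helper57.DS
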